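import Pool.Agent.H755R2.MT.Slice

set_option autoImplicit false
set_option linter.unusedSectionVars false

namespace Pool.H755R2.MT

open TopologicalSpace

variable {E : Type*} [NormedAddCommGroup E] [NormedSpace ℝ E]

lemma apply_le {f : StrongDual ℝ E} (hf : ‖f‖ ≤ 1) (z : E) : f z ≤ ‖z‖ := by
  refine (le_abs_self _).trans ?_
  have := f.le_opNorm z
  rw [Real.norm_eq_abs] at this
  refine this.trans ?_
  nlinarith [norm_nonneg z]

/-- Euler path: quadratically exposing functionals -/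
theorem quad_slice [CompleteSpace E] [SeparableSpace E] {κ t K : ℝ}
    (hrank : 1 < Module.rank ℝ E) (hκ : κ < 1 / 2) (ht : 0 < t) (h : ULT E κ t) (hK0 : 0 < K)
    (hK : ∀ x w : E, ‖x‖ = 1 → dl x w ≤ K * ‖w‖ ^ 2) :
    ∃ c : ℝ, 0 < c ∧ ∀ (x z : E) (f : StrongDual ℝ E), ‖x‖ = 1 → ‖f‖ ≤ 1 → f x = 1 →
      ‖z‖ = 1 → c * ‖z - x‖ ^ 2 ≤ 1 - f z := by
  obtain ⟨δ, hδ, hsl⟩ := slices hrank ht h hK0 hK (ε := t / 8) (by positivity)
  set c : ℝ := min (δ / 4) (δ ^ 2 / (4 * t ^ 2 * K)) with hc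
  have hc0 : 0 < c := lt_min (by positivity) (by positivity)
  have hc1 : c ≤ δ / 4 := min_le_left _ _
  have hc2 : c ≤ δ ^ 2 / (4 * t ^ 2 * K) := min_le_right _ _
  have hsq : t * Real.sqrt (K * c) ≤ δ / 2 := by
    have h1 : K * c ≤ (δ / (2 * t)) ^ 2 := by
      have : K * c ≤ K * (δ ^ 2 / (4 * t ^ 2 * K)) := mul_le_mul_of_nonneg_left hc2 hK0.le
      refine this.trans (le_of_eq ?_)
      field_simp
      ring
    have h2 : Real.sqrt (K * c) ≤ δ / (2 * t) := by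
      rw [← Real.sqrt_sq (show 0 ≤ δ / (2 * t) by positivity)]
      exact Real.sqrt_le_sqrt h1
    have h3 : t * Real.sqrt (K * c) ≤ t * (δ / (2 * t)) := mul_le_mul_of_nonneg_left h2 ht.le
    refine h3.trans (le_of_eq ?_)
    field_simp
  refine ⟨c, hc0, ?_⟩
  intro x z f hx hf hfx hz
  by_contra hcon
  push Not at hcon
  set v : E := z - x with hv
  have hzx : z = x + v := by rw [hv]; abel
  have hfz1 : f z ≤ 1 := by
    have := apply_le hf z
    rwa [hz] at this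
  have hvn : 0 < ‖v‖ := by
    rcases (norm_nonneg v).eq_or_lt with h0 | h0
    · rw [← h0] at hcon
      nlinarith
    · exact h0
  have hv2 : ‖v‖ ≤ 2 := by
    rw [hv]
    refine (norm_sub_le _ _).trans ?_
    rw [hz, hx]; norm_num
  have hfz : 1 - δ < f z := by
    have : c * ‖v‖ ^ 2 ≤ δ := by
      have h1 : ‖v‖ ^ 2 ≤ 4 := by nlinarith
      have h2 : c * ‖v‖ ^ 2 ≤ δ / 4 * 4 := mul_le_mul hc1 h1 (by positivity) (by positivity)
      linarith
    linarith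
  have hvs := hsl x z f hx hf hfx hz.le hfz
  rw [← hv] at hvs
  set η : ℝ := c * ‖v‖ ^ 2 with hη
  have hη0 : 0 ≤ η := by positivity
  have hsqη : Real.sqrt (K * η) = Real.sqrt (K * c) * ‖v‖ := by
    rw [hη, ← mul_assoc, Real.sqrt_mul' _ (by positivity), Real.sqrt_sq hvn.le]
  set n : ℕ := ⌊t / (2 * ‖v‖)⌋₊ with hn
  have hn2 : (n : ℝ) * ‖v‖ ≤ t / 2 := by
    have := Nat.floor_le (show 0 ≤ t / (2 * ‖v‖) by positivity)
    rw [← hn, le_div_iff₀ (by positivity)] at this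
    linarith
  have hn1 : 1 ≤ n := by
    rw [hn, Nat.one_le_floor_iff, le_div_iff₀ (by positivity)]
    linarith
  have hn3 : t / 4 < (n : ℝ) * ‖v‖ := by
    have := Nat.lt_floor_add_one (t / (2 * ‖v‖))
    rw [← hn, div_lt_iff₀ (by positivity)] at this
    have h1 : (1 : ℝ) ≤ n := by exact_mod_cast hn1
    nlinarith
  set u : E := ‖v‖⁻¹ • v with hu
  have hun : ‖u‖ = 1 := by
    rw [hu, norm_smul, norm_inv, norm_norm, inv_mul_cancel₀ hvn.ne']
  have hvu : v = ‖v‖ • u := by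
    rw [hu, smul_inv_smul₀ hvn.ne']
  have hpath : ∀ m : ℕ, m ≤ n → ∃ (y : E) (g : StrongDual ℝ E), ‖y‖ = 1 ∧ ‖g‖ ≤ 1 ∧ g y = 1 ∧
      ‖y - x - (m : ℝ) • v‖ ≤ 1 / 2 * m * ‖v‖ ∧
      ∀ w : E, |g w - f w| ≤ m * (2 * Real.sqrt (K * η)) * ‖w‖ := by
    intro m
    induction m with
    | zero =>
      intro _
      refine ⟨x, f, hx, hf, hfx, ?_, ?_⟩
      · simp
      · intro w; simp
    | succ m ih =>
      intro hm
      obtain ⟨y, g, hy, hg, hgy, hyx, hgf⟩ := ih (by omega)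
      have hmn : (m : ℝ) * ‖v‖ ≤ t / 2 := by
        have h1 : (m : ℝ) ≤ n := by exact_mod_cast (by omega : m ≤ n)
        exact (mul_le_mul_of_nonneg_right h1 hvn.le).trans hn2
      have hxy : ‖x - y‖ ≤ t := by
        have h1 : y - x = (y - x - (m : ℝ) • v) + (m : ℝ) • v := by abel
        rw [norm_sub_rev, h1]
        refine (norm_add_le _ _).trans ?_
        rw [norm_smul, Real.norm_of_nonneg (Nat.cast_nonneg m)]
        linarith
      obtain ⟨T, hT1, hT2⟩ := h x y u hx hy hun hxy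
      have hTv : ‖T v - v‖ ≤ 1 / 2 * ‖v‖ := by
        have e1 : T v - v = ‖v‖ • (T u - u) := by
          conv_lhs => rw [hvu]
          rw [map_smul, smul_sub]
        rw [e1, norm_smul, norm_norm, mul_comm]
        exact mul_le_mul_of_nonneg_right (hT2.trans hκ.le) hvn.le
      have hTz : ‖T z‖ = 1 := by rw [T.norm_map, hz]
      obtain ⟨g', hg'1, hg'2⟩ := exists_dual_vector ℝ (T z) (by rw [hTz]; exact one_ne_zero)
      have hg'3 : g' (T z) = 1 := by rw [hg'2, hTz]; simp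
      -- `g ∘ T = f`
      set q : StrongDual ℝ E := g.comp (T : E →L[ℝ] E) with hq
      have hqa : ∀ w, q w = g (T w) := fun w => rfl
      have hqn : ‖q‖ ≤ 1 := by
        refine ContinuousLinearMap.opNorm_le_bound _ zero_le_one fun w => ?_
        rw [hqa]
        refine (g.le_opNorm _).trans ?_
        rw [T.norm_map]
        exact mul_le_mul_of_nonneg_right hg (norm_nonneg _)
      have hqf : q = f := norming_unique hK0 hK hx hf hqn hfx (by rw [hqa, hT1, hgy])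
      have hgTz : 1 - η ≤ g (T z) := by
        rw [← hqa, hqf]
        linarith
      refine ⟨T z, g', hTz, hg'1.le, hg'3, ?_, ?_⟩
      · have e1 : T z - x - ((m + 1 : ℕ) : ℝ) • v = (y - x - (m : ℝ) • v) + (T v - v) := by
          rw [hzx, map_add, hT1]
          push_cast
          rw [add_smul, one_smul]
          abel
        rw [e1]
        refine (norm_add_le _ _).trans ?_
        push_cast
        linarith
      · intro w
        have h1 := fdiff hK0 hη0 hK hTz hg'1.le hg hg'3 hgTz w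
        have h2 := hgf w
        have h3 : g' w - f w = (g w - f w) - (g w - g' w) := by ring
        rw [h3]
        refine (abs_sub _ _).trans ?_
        push_cast
        linarith
  obtain ⟨y, g, hy, hg, hgy, hyx, hgf⟩ := hpath n le_rfl
  have h1 := hgf y
  rw [hgy, hy, mul_one, hsqη] at h1
  have h2 : (n : ℝ) * (2 * (Real.sqrt (K * c) * ‖v‖)) ≤ δ / 2 := by
    have : (n : ℝ) * (2 * (Real.sqrt (K * c) * ‖v‖)) = 2 * Real.sqrt (K * c) * (n * ‖v‖) := by ring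
    rw [this]
    have h3 : 2 * Real.sqrt (K * c) * (n * ‖v‖) ≤ 2 * Real.sqrt (K * c) * (t / 2) :=
      mul_le_mul_of_nonneg_left hn2 (by positivity)
    linarith
  have h3 := (abs_le.1 h1).2
  have h4 := hsl x y f hx hf hfx hy.le (by linarith)
  have h5 : (n : ℝ) • v = (y - x) - (y - x - (n : ℝ) • v) := by abel
  have h6 : (n : ℝ) * ‖v‖ ≤ ‖y - x‖ + 1 / 2 * n * ‖v‖ := by
    have h7 : ‖(n : ℝ) • v‖ = (n : ℝ) * ‖v‖ := by
      rw [norm_smul, Real.norm_of_nonneg (Nat.cast_nonneg n)]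
    rw [← h7]
    conv_lhs => rw [h5]
    refine (norm_sub_le _ _).trans ?_
    linarith
  nlinarith

/-- the dual norm is smooth of power type 2 -/
theorem dual_smooth [CompleteSpace E] [SeparableSpace E] {κ t : ℝ}
    (hrank : 1 < Module.rank ℝ E) (hκ : κ < 1 / 2) (ht : 0 < t) (h : ULT E κ t) :
    ∃ K : ℝ, 0 < K ∧ ∀ f g : StrongDual ℝ E, ‖f‖ = 1 → dl f g ≤ K * ‖g‖ ^ 2 := by
  obtain ⟨K, hK0, hK⟩ := smooth_of_ULT hκ ht h
  obtain ⟨c, hc0, hc⟩ := quad_slice hrank hκ ht h hK0 hK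
  refine ⟨1 / (2 * c), by positivity, ?_⟩
  intro f g hf
  obtain ⟨x, hx1, hx2⟩ := attains hK0 hK f
  have hx : ‖x‖ = 1 := by
    apply le_antisymm hx1
    have := apply_le hf.le x
    rw [hx2, hf] at this
    exact this
  rw [hf] at hx2
  have key : ∀ k : StrongDual ℝ E, ‖f + k‖ ≤ 1 + k x + ‖k‖ ^ 2 / (4 * c) := by
    intro k
    have hub : ∀ z : E, ‖z‖ = 1 → (f + k) z ≤ 1 + k x + ‖k‖ ^ 2 / (4 * c) := by
      intro z hz
      have h1 := hc x z f hx hf.le hx2 hz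
      have h2 : k z - k x ≤ ‖k‖ * ‖z - x‖ := by
        rw [← map_sub]
        refine (le_abs_self _).trans ?_
        exact k.le_opNorm _
      have h3 : (f + k) z = f z + k z := rfl
      rw [h3]
      have h4 : ‖k‖ * ‖z - x‖ ≤ c * ‖z - x‖ ^ 2 + ‖k‖ ^ 2 / (4 * c) := by
        have h5 : 0 ≤ (c * ‖z - x‖ - ‖k‖ / 2) ^ 2 / c := by positivity
        have h6 : (c * ‖z - x‖ - ‖k‖ / 2) ^ 2 / c =
            c * ‖z - x‖ ^ 2 - ‖k‖ * ‖z - x‖ + ‖k‖ ^ 2 / (4 * c) := by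
          field_simp
          ring
        linarith
      linarith
    have h0 : 0 ≤ 1 + k x + ‖k‖ ^ 2 / (4 * c) := by
      have h1 := hub x hx
      have h2 := hub (-x) (by rw [norm_neg]; exact hx)
      rw [map_neg] at h2
      linarith
    refine ContinuousLinearMap.opNorm_le_of_unit_norm h0 fun z hz => ?_
    rw [Real.norm_eq_abs, abs_le]
    constructor
    · have := hub (-z) (by rw [norm_neg]; exact hz)
      rw [map_neg] at this
      linarith
    · exact hub z hz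
  have h1 := key g
  have h2 := key (-g)
  rw [norm_neg, ← sub_eq_add_neg] at h2
  have h3 : (-g) x = -(g x) := rfl
  rw [h3] at h2
  unfold dl
  rw [hf]
  have h4 : 1 / (2 * c) * ‖g‖ ^ 2 = ‖g‖ ^ 2 / (4 * c) + ‖g‖ ^ 2 / (4 * c) := by
    field_simp
    ring
  rw [h4]
  linarith

/-- upper bound for second differences of the square of a norm of smoothness type 2 -/
theorem sq_upper {K : ℝ} (hK : ∀ x w : E, ‖x‖ = 1 → dl x w ≤ K * ‖w‖ ^ 2) (z w : E) :
    ‖z + w‖ ^ 2 + ‖z - w‖ ^ 2 - 2 * ‖z‖ ^ 2 ≤ (2 + 2 * K) * ‖w‖ ^ 2 := by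
  have h1 : ‖z‖ * dl z w ≤ K * ‖w‖ ^ 2 := by
    rcases eq_or_ne z 0 with rfl | hz
    · rw [norm_zero, zero_mul]
      rcases eq_or_ne w 0 with rfl | hw
      · simp
      · have hw0 : 0 < ‖w‖ := norm_pos_iff.2 hw
        have h2 := hK (‖w‖⁻¹ • w) w (by
          rw [norm_smul, norm_inv, norm_norm, inv_mul_cancel₀ hw0.ne'])
        exact (dl_nonneg _ _).trans h2
    · have hz0 : 0 < ‖z‖ := norm_pos_iff.2 hz
      have h2 := hK (‖z‖⁻¹ • z) (‖z‖⁻¹ • w) (by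
        rw [norm_smul, norm_inv, norm_norm, inv_mul_cancel₀ hz0.ne'])
      rw [dl_smul _ _ (by positivity), norm_smul, norm_inv, norm_norm, mul_pow] at h2
      have h3 := mul_le_mul_of_nonneg_left h2 (show 0 ≤ ‖z‖ ^ 2 by positivity)
      have h4 : ‖z‖ ^ 2 * (‖z‖⁻¹ * dl z w) = ‖z‖ * dl z w := by field_simp
      have h5 : ‖z‖ ^ 2 * (K * (‖z‖⁻¹ ^ 2 * ‖w‖ ^ 2)) = K * ‖w‖ ^ 2 := by field_simp
      rwa [h4, h5] at h3
  unfold dl at h1
  have h2 : ‖z + w‖ ≤ ‖z‖ + ‖w‖ := norm_add_le _ _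
  have h3 : ‖z - w‖ ≤ ‖z‖ + ‖w‖ := norm_sub_le _ _
  have h4 : ‖z‖ ≤ ‖z + w‖ + ‖w‖ := by
    have := norm_sub_le (z + w) w
    rwa [add_sub_cancel_right] at this
  have h5 : ‖z‖ ≤ ‖z - w‖ + ‖w‖ := by
    have := norm_add_le (z - w) w
    rwa [sub_add_cancel] at this
  have h6 : (‖z + w‖ - ‖z‖) ^ 2 ≤ ‖w‖ ^ 2 := by
    apply sq_le_sq'
    · linarith
    · linarith
  have h7 : (‖z - w‖ - ‖z‖) ^ 2 ≤ ‖w‖ ^ 2 := by
    apply sq_le_sq'
    · linarith
    · linarith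
  nlinarith

/-- lower bound for second differences of the square of the norm, by duality -/
theorem sq_lower {C : ℝ} (hC0 : 0 < C)
    (hC : ∀ f g : StrongDual ℝ E, ‖f + g‖ ^ 2 + ‖f - g‖ ^ 2 - 2 * ‖f‖ ^ 2 ≤ C * ‖g‖ ^ 2)
    (z w : E) : 4 / C * ‖w‖ ^ 2 ≤ ‖z + w‖ ^ 2 + ‖z - w‖ ^ 2 - 2 * ‖z‖ ^ 2 := by
  have hdual : ∀ z : E, ∃ f : StrongDual ℝ E, ‖f‖ = ‖z‖ ∧ f z = ‖z‖ ^ 2 := by
    intro z
    rcases eq_or_ne z 0 with rfl | hz
    · exact ⟨0, by simp, by simp⟩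
    · obtain ⟨f, hf1, hf2⟩ := exists_dual_vector ℝ z (norm_ne_zero_iff.2 hz)
      refine ⟨‖z‖ • f, ?_, ?_⟩
      · rw [norm_smul, norm_norm, hf1, mul_one]
      · show ‖z‖ * f z = ‖z‖ ^ 2
        rw [hf2]
        simp [sq]
  obtain ⟨f, hf1, hf2⟩ := hdual z
  obtain ⟨g₀, hg1, hg2⟩ := hdual w
  set τ : ℝ := 2 / C with hτ
  have hτ0 : 0 < τ := by positivity
  set g : StrongDual ℝ E := τ • g₀ with hg
  have hgn : ‖g‖ = τ * ‖w‖ := by rw [hg, norm_smul, Real.norm_of_nonneg hτ0.le, hg1]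
  have hgw : g w = τ * ‖w‖ ^ 2 := by
    show τ * g₀ w = _
    rw [hg2]
  have hpair : ∀ (F : StrongDual ℝ E) (Z : E), 2 * F Z ≤ ‖F‖ ^ 2 + ‖Z‖ ^ 2 := by
    intro F Z
    have h1 : F Z ≤ ‖F‖ * ‖Z‖ := (le_abs_self _).trans (F.le_opNorm Z)
    nlinarith [sq_nonneg (‖F‖ - ‖Z‖)]
  have h1 := hpair (f + g) (z + w)
  have h2 := hpair (f - g) (z - w)
  have h3 : (f + g) (z + w) + (f - g) (z - w) = 2 * f z + 2 * g w := by
    rw [map_add, map_sub]
    show f z + g z + (f w + g w) + (f z - g z - (f w - g w)) = _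
    ring
  have h4 := hC f g
  rw [hgn, hf1] at h4
  have h5 : C * (τ * ‖w‖) ^ 2 = 4 / C * ‖w‖ ^ 2 := by
    rw [hτ]; field_simp
    ring
  rw [h5] at h4
  rw [hf2, hgw] at h3
  have h6 : 4 * (τ * ‖w‖ ^ 2) = 2 * (4 / C * ‖w‖ ^ 2) := by
    rw [hτ]; ring
  linarith

end Pool.H755R2.MT
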