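import Pool.Agent.H755R2.MT.Smooth
import Pool.Agent.Results.MP_b4da01_an.SuperreflexiveYes

set_option autoImplicit false
set_option linter.unusedSectionVars false

namespace Pool.H755R2.MT

open TopologicalSpace
open scoped Pointwise

variable {E : Type*} [NormedAddCommGroup E] [NormedSpace ℝ E]

/-- comparison of a norming functional with an almost norming one -/
lemma fdiff {K η : ℝ} (hK0 : 0 < K) (hη : 0 ≤ η)
    (hK : ∀ x w : E, ‖x‖ = 1 → dl x w ≤ K * ‖w‖ ^ 2)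
    {y : E} {f g : StrongDual ℝ E} (hy : ‖y‖ = 1) (hf : ‖f‖ ≤ 1) (hg : ‖g‖ ≤ 1) (hfy : f y = 1)
    (hgy : 1 - η ≤ g y) (h : E) : |g h - f h| ≤ 2 * Real.sqrt (K * η) * ‖h‖ := by
  have hle : ∀ (F : StrongDual ℝ E), ‖F‖ ≤ 1 → ∀ z, F z ≤ ‖z‖ := by
    intro F hF z
    refine (le_abs_self _).trans ?_
    have := F.le_opNorm z
    rw [Real.norm_eq_abs] at this
    refine this.trans ?_
    nlinarith [norm_nonneg z]
  have key : ∀ h : E, g h - f h ≤ 2 * Real.sqrt (K * η) * ‖h‖ := by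
    intro h
    rcases eq_or_ne h 0 with rfl | hh
    · simp
    have hhn : 0 < ‖h‖ := norm_pos_iff.2 hh
    rcases le_or_gt (g h - f h) 0 with hD | hD
    · exact hD.trans (by positivity)
    set D : ℝ := g h - f h with hDdef
    have hall : ∀ τ : ℝ, 0 < τ → τ * D ≤ η + K * τ ^ 2 * ‖h‖ ^ 2 := by
      intro τ hτ
      have h1 := hK y (τ • h) hy
      unfold dl at h1
      rw [norm_smul, Real.norm_of_nonneg hτ.le, hy] at h1
      have h2 := hle g hg (y + τ • h)
      have h3 := hle f hf (y - τ • h)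
      rw [map_add, map_smul, smul_eq_mul] at h2
      rw [map_sub, map_smul, smul_eq_mul, hfy] at h3
      rw [hDdef]
      nlinarith
    have hτ0 : 0 < D / (2 * K * ‖h‖ ^ 2) := by positivity
    have h4 := hall _ hτ0
    have h5 : D / (2 * K * ‖h‖ ^ 2) * D = D ^ 2 / (2 * K * ‖h‖ ^ 2) := by ring
    have h6 : K * (D / (2 * K * ‖h‖ ^ 2)) ^ 2 * ‖h‖ ^ 2 = D ^ 2 / (2 * K * ‖h‖ ^ 2) / 2 := by
      field_simp
    rw [h5, h6] at h4
    have h7 : D ^ 2 / (2 * K * ‖h‖ ^ 2) ≤ 2 * η := by linarith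
    rw [div_le_iff₀ (by positivity)] at h7
    have h8 : D ^ 2 ≤ (2 * Real.sqrt (K * η) * ‖h‖) ^ 2 := by
      rw [mul_pow, mul_pow, Real.sq_sqrt (by positivity)]
      linarith
    exact (abs_le_of_sq_le_sq' h8 (by positivity)).2
  rw [abs_le]
  constructor
  · have := key (-h)
    rw [map_neg, map_neg, norm_neg] at this
    linarith
  · exact key h

lemma norming_unique {K : ℝ} (hK0 : 0 < K) (hK : ∀ x w : E, ‖x‖ = 1 → dl x w ≤ K * ‖w‖ ^ 2)
    {y : E} {f g : StrongDual ℝ E} (hy : ‖y‖ = 1) (hf : ‖f‖ ≤ 1) (hg : ‖g‖ ≤ 1) (hfy : f y = 1)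
    (hgy : g y = 1) : g = f := by
  ext h
  have := fdiff hK0 le_rfl hK hy hf hg hfy (by rw [hgy]; simp) h
  rw [mul_zero, Real.sqrt_zero, mul_zero, zero_mul] at this
  have h1 := abs_nonpos_iff.1 this
  linarith

/-- reflexivity gives norm attainment -/
lemma attains [CompleteSpace E] {K : ℝ} (hK0 : 0 < K)
    (hK : ∀ x w : E, ‖x‖ = 1 → dl x w ≤ K * ‖w‖ ^ 2) (f : StrongDual ℝ E) :
    ∃ z : E, ‖z‖ ≤ 1 ∧ f z = ‖f‖ := by
  rcases eq_or_ne f 0 with rfl | hf
  · exact ⟨0, by simp, by simp⟩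
  have hr : Pool.Agent.Results.MP_b4da01_an.SuperreflexiveYes.Reflexive E := by
    apply Pool.Agent.Results.MP_b4da01_an.SuperreflexiveYes.core_reflexive K hK0
    intro x h hx
    have := hK x h hx
    unfold dl at this
    rw [hx] at this
    linarith
  obtain ⟨F, hF1, hF2⟩ := exists_dual_vector ℝ f (norm_ne_zero_iff.2 hf)
  obtain ⟨z, hz⟩ := hr F
  refine ⟨z, ?_, ?_⟩
  · have h1 : ‖NormedSpace.inclusionInDoubleDual ℝ E z‖ = ‖z‖ :=
      (NormedSpace.inclusionInDoubleDualLi ℝ).norm_map z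
    rw [← h1, hz, hF1]
  · have h1 : NormedSpace.inclusionInDoubleDual ℝ E z f = f z := NormedSpace.dual_def ℝ E z f
    rw [← h1, hz, hF2]
    simp

/-- Baire: small slices in a separable space all of whose functionals attain their norm -/
theorem exists_slice [SeparableSpace E]
    (hatt : ∀ f : StrongDual ℝ E, ∃ z : E, ‖z‖ ≤ 1 ∧ f z = ‖f‖)
    (hne : ∃ f : StrongDual ℝ E, f ≠ 0) {ε : ℝ} (hε : 0 < ε) :
    ∃ (f : StrongDual ℝ E) (x : E) (δ : ℝ), ‖f‖ = 1 ∧ ‖x‖ = 1 ∧ f x = 1 ∧ 0 < δ ∧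
      ∀ z : E, ‖z‖ ≤ 1 → 1 - δ < f z → ‖z - x‖ ≤ ε := by
  set e : ℝ := ε / 4 with he
  have he0 : 0 < e := by positivity
  have : Nonempty E := ⟨0⟩
  set d : ℕ → E := denseSeq E with hd
  set C : ℕ → Set (StrongDual ℝ E) := fun m =>
    {f | ∀ η > 0, ∃ z : E, ‖z‖ ≤ 1 ∧ ‖z - d m‖ ≤ e ∧ ‖f‖ - η ≤ f z} with hC
  have hclosed : ∀ m, IsClosed (C m) := by
    intro m
    rw [← closure_subset_iff_isClosed]
    intro f hf η hη
    obtain ⟨g, hg, hfg⟩ := Metric.mem_closure_iff.1 hf (η / 3) (by positivity)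
    obtain ⟨z, hz1, hz2, hz3⟩ := hg (η / 3) (by positivity)
    refine ⟨z, hz1, hz2, ?_⟩
    rw [dist_eq_norm] at hfg
    have h1 : ‖f‖ ≤ ‖g‖ + ‖f - g‖ := by
      have := norm_add_le g (f - g)
      rwa [add_sub_cancel] at this
    have h2 : g z - f z ≤ ‖f - g‖ := by
      have h3 := (g - f).le_opNorm z
      rw [Real.norm_eq_abs, norm_sub_rev g f] at h3
      have h4 : (g - f) z = g z - f z := rfl
      rw [h4] at h3
      have h5 := le_abs_self (g z - f z)
      have h6 : ‖f - g‖ * ‖z‖ ≤ ‖f - g‖ * 1 :=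
        mul_le_mul_of_nonneg_left hz1 (norm_nonneg _)
      linarith
    linarith
  have hcover : (⋃ m, C m) = Set.univ := by
    rw [Set.eq_univ_iff_forall]
    intro f
    obtain ⟨z, hz1, hz2⟩ := hatt f
    obtain ⟨m, hm⟩ := (denseRange_denseSeq E).exists_dist_lt z he0
    rw [Set.mem_iUnion]
    refine ⟨m, fun η hη => ⟨z, hz1, ?_, ?_⟩⟩
    · rw [dist_eq_norm] at hm
      exact hm.le
    · rw [hz2]; linarith
  obtain ⟨m, hm⟩ := nonempty_interior_of_iUnion_of_closed hclosed hcover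
  obtain ⟨g₀, hg₀⟩ := hm
  obtain ⟨r₀, hr₀, hball⟩ := Metric.isOpen_iff.1 isOpen_interior g₀ hg₀
  have hball2 : Metric.ball g₀ r₀ ⊆ C m := hball.trans interior_subset
  -- a nonzero centre
  obtain ⟨f₁, r, hf₁, hr, hfr⟩ : ∃ (f₁ : StrongDual ℝ E) (r : ℝ), f₁ ≠ 0 ∧ 0 < r ∧
      Metric.ball f₁ r ⊆ C m := by
    rcases eq_or_ne g₀ 0 with h0 | h0
    · obtain ⟨k, hk⟩ := hne
      have hkn : 0 < ‖k‖ := norm_pos_iff.2 hk
      refine ⟨(r₀ / (2 * ‖k‖)) • k, r₀ / 2, ?_, by positivity, ?_⟩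
      · exact smul_ne_zero (by positivity) hk
      · intro f hf
        apply hball2
        rw [Metric.mem_ball, dist_eq_norm] at hf ⊢
        rw [h0, sub_zero]
        have h1 : ‖(r₀ / (2 * ‖k‖)) • k‖ = r₀ / 2 := by
          rw [norm_smul, Real.norm_of_nonneg (by positivity)]
          field_simp
        have h2 := norm_add_le (f - (r₀ / (2 * ‖k‖)) • k) ((r₀ / (2 * ‖k‖)) • k)
        rw [sub_add_cancel, h1] at h2
        linarith
    · exact ⟨g₀, r₀, h0, hr₀, hball2⟩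
  have hf₁n : 0 < ‖f₁‖ := norm_pos_iff.2 hf₁
  set A : Set E := {z | ‖z‖ ≤ 1 ∧ ‖z - d m‖ ≤ e} with hA
  have hAconv : Convex ℝ A := by
    have h1 : A = Metric.closedBall (0 : E) 1 ∩ Metric.closedBall (d m) e := by
      ext z
      simp [hA, dist_eq_norm]
    rw [h1]
    exact (convex_closedBall _ _).inter (convex_closedBall _ _)
  have hAne : A.Nonempty := by
    obtain ⟨z, hz1, hz2, _⟩ := hfr (Metric.mem_ball_self hr) 1 one_pos
    exact ⟨z, hz1, hz2⟩
  set U : Set E := A + Metric.ball (0 : E) e with hU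
  have hUo : IsOpen U := Metric.isOpen_ball.add_left
  have hUc : Convex ℝ U := hAconv.add (convex_ball _ _)
  set θ : ℝ := r / 2 * (e / 2) with hθ
  have hθ0 : 0 < θ := by positivity
  have hslice : ∀ z : E, ‖z‖ ≤ 1 → ‖f₁‖ - θ < f₁ z → ‖z - d m‖ < 2 * e := by
    intro z hz hfz
    have hzU : z ∈ U := by
      by_contra hzU
      obtain ⟨h, hh⟩ := geometric_hahn_banach_open_point hUc hUo hzU
      obtain ⟨a₀, ha₀⟩ := hAne
      have hAh : ∀ a ∈ A, h a + e / 2 * ‖h‖ ≤ h z := by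
        intro a ha
        have h1 : ∀ b : E, ‖b‖ < e → h a + h b < h z := by
          intro b hb
          rw [← map_add]
          exact hh _ (Set.add_mem_add ha (by rwa [mem_ball_zero_iff]))
        have hc0 : 0 < h z - h a := by
          have := h1 0 (by simpa using he0)
          rw [map_zero] at this
          linarith
        have h2 : ‖h‖ ≤ 2 / e * (h z - h a) := by
          refine ContinuousLinearMap.opNorm_le_bound _ (by positivity) fun x => ?_
          have h3 : ∀ x : E, h x ≤ 2 / e * (h z - h a) * ‖x‖ := by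
            intro x
            rcases eq_or_ne x 0 with rfl | hx
            · simp
            have hxn : 0 < ‖x‖ := norm_pos_iff.2 hx
            have h4 := h1 ((e / (2 * ‖x‖)) • x) (by
              rw [norm_smul, Real.norm_of_nonneg (by positivity)]
              have : e / (2 * ‖x‖) * ‖x‖ = e / 2 := by field_simp
              rw [this]; linarith)
            rw [map_smul, smul_eq_mul] at h4
            have h5 : e / (2 * ‖x‖) * h x ≤ h z - h a := by linarith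
            have h6 : h x = (2 * ‖x‖ / e) * (e / (2 * ‖x‖) * h x) := by field_simp
            rw [h6]
            have h7 : 2 / e * (h z - h a) * ‖x‖ = (2 * ‖x‖ / e) * (h z - h a) := by ring
            rw [h7]
            exact mul_le_mul_of_nonneg_left h5 (by positivity)
          rw [Real.norm_eq_abs, abs_le]
          constructor
          · have := h3 (-x)
            rw [map_neg, norm_neg] at this
            linarith
          · exact h3 x
        have h8 : e / 2 * ‖h‖ ≤ e / 2 * (2 / e * (h z - h a)) :=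
          mul_le_mul_of_nonneg_left h2 (by positivity)
        have h9 : e / 2 * (2 / e * (h z - h a)) = h z - h a := by field_simp
        linarith
      have hhne : h ≠ 0 := by
        rintro rfl
        have := hh a₀ (by
          have := Set.add_mem_add ha₀ (Metric.mem_ball_self he0 : (0 : E) ∈ Metric.ball (0 : E) e)
          rwa [add_zero] at this)
        simp at this
      have hhn : 0 < ‖h‖ := norm_pos_iff.2 hhne
      set f₂ : StrongDual ℝ E := f₁ + (r / 2 * ‖h‖⁻¹) • h with hf₂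
      have hf₂mem : f₂ ∈ C m := by
        apply hfr
        rw [Metric.mem_ball, dist_eq_norm, hf₂, add_sub_cancel_left, norm_smul,
          Real.norm_of_nonneg (by positivity), mul_assoc, inv_mul_cancel₀ hhn.ne']
        linarith
      set η : ℝ := (f₁ z - (‖f₁‖ - θ)) / 2 with hη
      have hη0 : 0 < η := by rw [hη]; linarith
      obtain ⟨a, ha1, ha2, ha3⟩ := hf₂mem η hη0
      have h1 := hAh a ⟨ha1, ha2⟩
      have h2 : f₂ a = f₁ a + r / 2 * ‖h‖⁻¹ * h a := by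
        rw [hf₂]; simp
      have h3 : f₂ z = f₁ z + r / 2 * ‖h‖⁻¹ * h z := by
        rw [hf₂]; simp
      have h4 : f₂ z ≤ ‖f₂‖ := by
        have := f₂.le_opNorm z
        rw [Real.norm_eq_abs] at this
        have h5 : ‖f₂‖ * ‖z‖ ≤ ‖f₂‖ * 1 := mul_le_mul_of_nonneg_left hz (norm_nonneg _)
        have h6 := le_abs_self (f₂ z)
        linarith
      have h5 : f₁ a ≤ ‖f₁‖ := by
        have := f₁.le_opNorm a
        rw [Real.norm_eq_abs] at this
        have h5 : ‖f₁‖ * ‖a‖ ≤ ‖f₁‖ * 1 := mul_le_mul_of_nonneg_left ha1 (norm_nonneg _)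
        have h6 := le_abs_self (f₁ a)
        linarith
      have h6 : r / 2 * ‖h‖⁻¹ * h a ≤ r / 2 * ‖h‖⁻¹ * (h z - e / 2 * ‖h‖) :=
        mul_le_mul_of_nonneg_left (by linarith) (by positivity)
      have h7 : r / 2 * ‖h‖⁻¹ * (h z - e / 2 * ‖h‖) = r / 2 * ‖h‖⁻¹ * h z - θ := by
        rw [hθ]; field_simp
      rw [h2] at ha3
      rw [h3] at h4
      linarith
    obtain ⟨a, ha, b, hb, rfl⟩ := Set.mem_add.1 hzU
    rw [mem_ball_zero_iff] at hb
    have h1 : a + b - d m = (a - d m) + b := by abel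
    rw [h1]
    have h2 := norm_add_le (a - d m) b
    have h3 := ha.2
    linarith
  obtain ⟨x₀, hx₀1, hx₀2⟩ := hatt f₁
  have hx₀ : ‖x₀‖ = 1 := by
    apply le_antisymm hx₀1
    have := f₁.le_opNorm x₀
    rw [Real.norm_eq_abs] at this
    have h6 := le_abs_self (f₁ x₀)
    rw [hx₀2] at h6
    rw [hx₀2] at this
    have h7 : ‖f₁‖ * 1 ≤ ‖f₁‖ * ‖x₀‖ := by linarith
    exact le_of_mul_le_mul_left h7 hf₁n
  refine ⟨‖f₁‖⁻¹ • f₁, x₀, θ / ‖f₁‖, ?_, hx₀, ?_, by positivity, ?_⟩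
  · rw [norm_smul, norm_inv, norm_norm, inv_mul_cancel₀ hf₁n.ne']
  · show ‖f₁‖⁻¹ * f₁ x₀ = 1
    rw [hx₀2, inv_mul_cancel₀ hf₁n.ne']
  · intro z hz hfz
    have hfz' : 1 - θ / ‖f₁‖ < ‖f₁‖⁻¹ * f₁ z := hfz
    have h1 : ‖f₁‖ - θ < f₁ z := by
      have h2 := mul_lt_mul_of_pos_left hfz' hf₁n
      rw [← mul_assoc, mul_inv_cancel₀ hf₁n.ne', one_mul, mul_sub, mul_one,
        mul_div_cancel₀ _ hf₁n.ne'] at h2
      exact h2
    have h2 := hslice z hz h1
    have h3 := hslice x₀ hx₀1 (by rw [hx₀2]; linarith)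
    have h4 : z - x₀ = (z - d m) - (x₀ - d m) := by abel
    rw [h4]
    have h5 := norm_sub_le (z - d m) (x₀ - d m)
    rw [he] at h2 h3
    linarith

/-- a uniformly locally transitive norm is transitive (dimension at least two) -/
theorem transitive_of_ULT {κ t : ℝ} (hrank : 1 < Module.rank ℝ E) (ht : 0 < t) (h : ULT E κ t)
    (x y : E) (hx : ‖x‖ = 1) (hy : ‖y‖ = 1) : ∃ T : E ≃ₗᵢ[ℝ] E, T x = y := by
  have hS : IsPreconnected (Metric.sphere (0 : E) 1) := isPreconnected_sphere hrank 0 1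
  rw [isPreconnected_iff_subset_of_disjoint] at hS
  set O : Set E := {z | ‖z‖ = 1 ∧ ∃ T : E ≃ₗᵢ[ℝ] E, T x = z} with hO
  set N : Set E := {z | ‖z‖ = 1 ∧ ¬ ∃ T : E ≃ₗᵢ[ℝ] E, T x = z} with hN
  set u : Set E := ⋃ z ∈ O, Metric.ball z t with hu
  set v : Set E := ⋃ z ∈ N, Metric.ball z t with hv
  have huo : IsOpen u := isOpen_biUnion fun z _ => Metric.isOpen_ball
  have hvo : IsOpen v := isOpen_biUnion fun z _ => Metric.isOpen_ball
  have hcl : ∀ z w : E, ‖z‖ = 1 → ‖w‖ = 1 → ‖z - w‖ < t → (∃ T : E ≃ₗᵢ[ℝ] E, T x = z) →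
      ∃ T : E ≃ₗᵢ[ℝ] E, T x = w := by
    rintro z w hz hw hzw ⟨T, hT⟩
    obtain ⟨T', hT', _⟩ := h z w z hz hw hz hzw.le
    exact ⟨T.trans T', by rw [LinearIsometryEquiv.trans_apply, hT, hT']⟩
  have hcov : Metric.sphere (0 : E) 1 ⊆ u ∪ v := by
    intro z hz
    rw [mem_sphere_zero_iff_norm] at hz
    by_cases hzO : ∃ T : E ≃ₗᵢ[ℝ] E, T x = z
    · left
      exact Set.mem_biUnion (show z ∈ O from ⟨hz, hzO⟩) (Metric.mem_ball_self ht)
    · right
      exact Set.mem_biUnion (show z ∈ N from ⟨hz, hzO⟩) (Metric.mem_ball_self ht)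
  have hdis : Metric.sphere (0 : E) 1 ∩ (u ∩ v) = ∅ := by
    rw [Set.eq_empty_iff_forall_notMem]
    rintro z ⟨hz, hzu, hzv⟩
    rw [mem_sphere_zero_iff_norm] at hz
    obtain ⟨a, ha, hza⟩ := Set.mem_iUnion₂.1 hzu
    obtain ⟨b, hb, hzb⟩ := Set.mem_iUnion₂.1 hzv
    rw [Metric.mem_ball, dist_eq_norm] at hza hzb
    have h1 := hcl a z ha.1 hz (by rwa [norm_sub_rev]) ha.2
    exact hb.2 (hcl z b hz hb.1 hzb h1)
  rcases hS u v huo hvo hcov hdis with h1 | h1
  · have h2 := h1 (mem_sphere_zero_iff_norm.2 hy)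
    obtain ⟨a, ha, hza⟩ := Set.mem_iUnion₂.1 h2
    rw [Metric.mem_ball, dist_eq_norm] at hza
    exact hcl a y ha.1 hy (by rwa [norm_sub_rev]) ha.2
  · exfalso
    have h2 := h1 (mem_sphere_zero_iff_norm.2 hx)
    obtain ⟨a, ha, hza⟩ := Set.mem_iUnion₂.1 h2
    rw [Metric.mem_ball, dist_eq_norm] at hza
    exact ha.2 (hcl x a hx ha.1 hza ⟨LinearIsometryEquiv.refl ℝ E, rfl⟩)

/-- uniformly small slices at every point -/
theorem slices [CompleteSpace E] [SeparableSpace E] {κ t K : ℝ} (hrank : 1 < Module.rank ℝ E)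
    (ht : 0 < t) (h : ULT E κ t) (hK0 : 0 < K)
    (hK : ∀ x w : E, ‖x‖ = 1 → dl x w ≤ K * ‖w‖ ^ 2) {ε : ℝ} (hε : 0 < ε) :
    ∃ δ : ℝ, 0 < δ ∧ ∀ (x z : E) (f : StrongDual ℝ E), ‖x‖ = 1 → ‖f‖ ≤ 1 → f x = 1 →
      ‖z‖ ≤ 1 → 1 - δ < f z → ‖z - x‖ ≤ ε := by
  have hne : ∃ f : StrongDual ℝ E, f ≠ 0 := by
    have : Nontrivial E := by
      have : 0 < Module.rank ℝ E := lt_trans zero_lt_one hrank
      exact rank_pos_iff_nontrivial.1 this
    obtain ⟨x, hx⟩ := exists_ne (0 : E)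
    obtain ⟨g, hg1, hg2⟩ := exists_dual_vector ℝ x (norm_ne_zero_iff.2 hx)
    refine ⟨g, ?_⟩
    rintro rfl
    simp at hg1
  obtain ⟨f₀, x₀, δ, hf₀, hx₀, hfx₀, hδ, hsl⟩ := exists_slice (attains hK0 hK) hne hε
  refine ⟨δ, hδ, ?_⟩
  intro x z f hx hf hfx hz hfz
  obtain ⟨T, hT⟩ := transitive_of_ULT hrank ht h x₀ x hx₀ hx
  set g : StrongDual ℝ E := f.comp (T : E →L[ℝ] E) with hg
  have hga : ∀ w, g w = f (T w) := fun w => rfl
  have hgn : ‖g‖ ≤ 1 := by
    refine ContinuousLinearMap.opNorm_le_bound _ zero_le_one fun w => ?_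
    rw [hga]
    refine (f.le_opNorm _).trans ?_
    rw [T.norm_map]
    exact mul_le_mul_of_nonneg_right hf (norm_nonneg _)
  have hgf : g = f₀ := norming_unique hK0 hK hx₀ hf₀.le hgn hfx₀ (by rw [hga, hT, hfx])
  have h1 := hsl (T.symm z) (by rwa [T.symm.norm_map]) (by
    rw [← hgf, hga, T.apply_symm_apply]; exact hfz)
  have h2 : z - x = T (T.symm z - x₀) := by
    rw [map_sub, T.apply_symm_apply, hT]
  rw [h2, T.norm_map]
  exact h1

end Pool.H755R2.MT
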