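import Mathlib

set_option autoImplicit false
set_option linter.unusedSectionVars false

namespace Pool.H755R2.MT

variable {E : Type*} [NormedAddCommGroup E] [NormedSpace ℝ E]

/-- second difference of the norm -/
noncomputable def dl (x w : E) : ℝ := ‖x + w‖ + ‖x - w‖ - 2 * ‖x‖

/-- uniform local transitivity -/
def ULT (E : Type*) [NormedAddCommGroup E] [NormedSpace ℝ E] (κ t : ℝ) : Prop :=
  ∀ x y u : E, ‖x‖ = 1 → ‖y‖ = 1 → ‖u‖ = 1 → ‖x - y‖ ≤ t →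
    ∃ T : E ≃ₗᵢ[ℝ] E, T x = y ∧ ‖T u - u‖ ≤ κ

lemma dl_nonneg (x w : E) : 0 ≤ dl x w := by
  have h : ‖(x + w) + (x - w)‖ ≤ ‖x + w‖ + ‖x - w‖ := norm_add_le _ _
  have h2 : (x + w) + (x - w) = (2 : ℝ) • x := by rw [two_smul]; abel
  rw [h2, norm_smul, Real.norm_eq_abs, abs_of_pos (by norm_num : (0:ℝ) < 2)] at h
  unfold dl
  linarith

lemma dl_le (x w : E) : dl x w ≤ 2 * ‖w‖ := by
  have h1 : ‖x + w‖ ≤ ‖x‖ + ‖w‖ := norm_add_le _ _
  have h2 : ‖x - w‖ ≤ ‖x‖ + ‖w‖ := norm_sub_le _ _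
  unfold dl
  linarith

lemma dl_zero (x : E) : dl x 0 = 0 := by
  unfold dl
  rw [add_zero, sub_zero]
  ring

lemma dl_map (T : E ≃ₗᵢ[ℝ] E) (x w : E) : dl (T x) (T w) = dl x w := by
  unfold dl
  rw [← map_add, ← map_sub, T.norm_map, T.norm_map, T.norm_map]

lemma dl_smul (x w : E) {a : ℝ} (ha : 0 ≤ a) : dl (a • x) (a • w) = a * dl x w := by
  unfold dl
  rw [← smul_add, ← smul_sub, norm_smul, norm_smul, norm_smul, Real.norm_of_nonneg ha]
  ring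

lemma dl_convex (x w w' : E) {a : ℝ} (h0 : 0 ≤ a) (h1 : a ≤ 1) :
    dl x ((1 - a) • w + a • w') ≤ (1 - a) * dl x w + a * dl x w' := by
  have h1' : 0 ≤ 1 - a := by linarith
  have e1 : x + ((1 - a) • w + a • w') = (1 - a) • (x + w) + a • (x + w') := by
    rw [smul_add, smul_add, sub_smul, sub_smul, one_smul, one_smul]; abel
  have e2 : x - ((1 - a) • w + a • w') = (1 - a) • (x - w) + a • (x - w') := by
    rw [smul_sub, smul_sub, sub_smul, sub_smul, one_smul, one_smul]; abel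
  have b1 : ‖x + ((1 - a) • w + a • w')‖ ≤ (1 - a) * ‖x + w‖ + a * ‖x + w'‖ := by
    rw [e1]
    refine (norm_add_le _ _).trans ?_
    rw [norm_smul, norm_smul, Real.norm_of_nonneg h1', Real.norm_of_nonneg h0]
  have b2 : ‖x - ((1 - a) • w + a • w')‖ ≤ (1 - a) * ‖x - w‖ + a * ‖x - w'‖ := by
    rw [e2]
    refine (norm_add_le _ _).trans ?_
    rw [norm_smul, norm_smul, Real.norm_of_nonneg h1', Real.norm_of_nonneg h0]
  unfold dl
  nlinarith

lemma second_sum (a : ℤ → ℝ) (β : ℝ) (n : ℕ)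
    (h : ∀ k : ℤ, |k| < n → β ≤ a (k + 1) + a (k - 1) - 2 * a k) :
    β * (n : ℝ) ^ 2 ≤ a n + a (-n) - 2 * a 0 := by
  have hstep : ∀ m : ℕ, m < n →
      β * (2 * m + 1) ≤ (a (m + 1) - a m) + (a (-(m : ℤ) - 1) - a (-(m : ℤ))) := by
    intro m
    induction m with
    | zero =>
      intro hm
      have := h 0 (by simpa using hm)
      simp only [CharP.cast_eq_zero, neg_zero, zero_add, zero_sub, mul_zero] at this ⊢
      linarith
    | succ m ih =>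
      intro hm
      have h0 := ih (by omega)
      have h1 := h ((m : ℤ) + 1) (by rw [abs_of_nonneg (by positivity)]; exact_mod_cast hm)
      have h2 := h (-((m : ℤ) + 1)) (by rw [abs_neg, abs_of_nonneg (by positivity)]; exact_mod_cast hm)
      push_cast at *
      have e1 : (m : ℤ) + 1 - 1 = m := by ring
      have e2 : -((m : ℤ) + 1) + 1 = -m := by ring
      have e3 : -((m : ℤ) + 1) = -(m : ℤ) - 1 := by ring
      rw [e1] at h1
      rw [e2] at h2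
      rw [e3] at h2 ⊢
      linarith
  have hall : ∀ m : ℕ, m ≤ n → β * (m : ℝ) ^ 2 ≤ a m + a (-m) - 2 * a 0 := by
    intro m
    induction m with
    | zero =>
      intro _
      simp only [CharP.cast_eq_zero, neg_zero]
      linarith
    | succ m ih =>
      intro hm
      have h0 := ih (by omega)
      have h1 := hstep m (by omega)
      push_cast
      have e3 : -((m : ℤ) + 1) = -(m : ℤ) - 1 := by ring
      rw [e3]
      nlinarith
  exact hall n le_rfl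

lemma dl_ray {x v : E} {ρ K σ : ℝ} (hσ : 0 < σ) (hρ : σ ≤ ρ) (hv : ‖v‖ ≤ ρ)
    (hK0 : 0 ≤ K) (hK : ∀ w : E, σ ≤ ‖w‖ → dl x w ≤ K * ‖w‖ ^ 2) : dl x v ≤ K * ρ ^ 2 := by
  have hρ0 : 0 < ρ := hσ.trans_le hρ
  rcases eq_or_ne v 0 with rfl | hv0
  · rw [dl_zero]; positivity
  · have hvn : 0 < ‖v‖ := norm_pos_iff.2 hv0
    set v' : E := (ρ / ‖v‖) • v with hv'
    have hv'n : ‖v'‖ = ρ := by
      rw [hv', norm_smul, Real.norm_of_nonneg (by positivity)]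
      field_simp
    have h1 : v = (1 - ‖v‖ / ρ) • (0 : E) + (‖v‖ / ρ) • v' := by
      rw [hv', smul_zero, zero_add, smul_smul]
      have : ‖v‖ / ρ * (ρ / ‖v‖) = 1 := by field_simp
      rw [this, one_smul]
    have h2 := dl_convex x (0 : E) v' (a := ‖v‖ / ρ) (by positivity)
      (by rw [div_le_one hρ0]; exact hv)
    rw [← h1, dl_zero, mul_zero, zero_add] at h2
    have h3 : dl x v' ≤ K * ρ ^ 2 := by
      have := hK v' (by rw [hv'n]; exact hρ)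
      rwa [hv'n] at this
    have h4 : ‖v‖ / ρ ≤ 1 := by rw [div_le_one hρ0]; exact hv
    have h5 := dl_nonneg x v'
    nlinarith [mul_le_mul_of_nonneg_right h4 h5]

/-- perturbation of a nearly extremal direction -/
lemma pert {x w w2 : E} {κ₁ K σ η : ℝ} (hσ0 : 0 < σ) (hw : σ ≤ ‖w‖) (hκ₁0 : 0 < κ₁)
    (hκ₁1 : κ₁ < 1 / 2) (hη : η = (1 - 2 * κ₁) ^ 2 / 2) (hKpos : 0 < K)
    (hKub : ∀ w : E, σ ≤ ‖w‖ → dl x w ≤ K * ‖w‖ ^ 2)
    (hxw : (1 - η) * K * ‖w‖ ^ 2 < dl x w) (hw2n : ‖w2 - w‖ ≤ κ₁ * ‖w‖) :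
    η * K * ‖w‖ ^ 2 ≤ dl x w2 := by
  have hs0 : 0 < ‖w‖ := hσ0.trans_le hw
  have hk : 0 < 1 - κ₁ := by linarith
  set l : ℝ := κ₁ / (1 - κ₁) with hl
  have hl0 : 0 < l := by positivity
  have hl1 : l < 1 := by rw [hl, div_lt_one hk]; linarith
  have hlk : l * (1 - κ₁) = κ₁ := by rw [hl]; field_simp
  set v : E := l⁻¹ • (w - (1 - l) • w2) with hv
  have hwv : w = (1 - l) • w2 + l • v := by
    rw [hv, smul_inv_smul₀ hl0.ne']; abel
  have hvn : ‖v‖ ≤ 2 * (1 - κ₁) * ‖w‖ := by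
    have e1 : w - (1 - l) • w2 = l • w + (1 - l) • (w - w2) := by
      rw [smul_sub, sub_smul, one_smul, sub_smul, one_smul]; abel
    rw [hv, e1, norm_smul, norm_inv, Real.norm_of_nonneg hl0.le, inv_mul_le_iff₀ hl0]
    refine (norm_add_le _ _).trans ?_
    rw [norm_smul, norm_smul, Real.norm_of_nonneg hl0.le,
      Real.norm_of_nonneg (show 0 ≤ 1 - l by linarith), norm_sub_rev w w2]
    have e2 : (1 - l) * ‖w2 - w‖ ≤ (1 - l) * (κ₁ * ‖w‖) :=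
      mul_le_mul_of_nonneg_left hw2n (by linarith)
    have e3 : l * (2 * (1 - κ₁) * ‖w‖) = l * ‖w‖ + (1 - l) * (κ₁ * ‖w‖) := by
      have : l * (2 * (1 - κ₁) * ‖w‖) = 2 * (l * (1 - κ₁)) * ‖w‖ := by ring
      rw [this, hlk]
      have h2 : l * ‖w‖ + (1 - l) * (κ₁ * ‖w‖) = (l * (1 - κ₁)) * ‖w‖ + κ₁ * ‖w‖ := by ring
      rw [h2, hlk]; ring
    linarith
  have hdv : dl x v ≤ K * (2 * (1 - κ₁) * ‖w‖) ^ 2 :=
    dl_ray hσ0 (by nlinarith) hvn hKpos.le hKub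
  have hcv := dl_convex x w2 v hl0.le hl1.le
  rw [← hwv] at hcv
  have e0 : 0 ≤ dl x w2 := dl_nonneg _ _
  have e1 : l * dl x v ≤ l * (K * (2 * (1 - κ₁) * ‖w‖) ^ 2) :=
    mul_le_mul_of_nonneg_left hdv hl0.le
  have e2 : (1 - l) * dl x w2 ≤ dl x w2 := by nlinarith
  have e3 : (1 - η) * K * ‖w‖ ^ 2 - l * (K * (2 * (1 - κ₁) * ‖w‖) ^ 2) = η * K * ‖w‖ ^ 2 := by
    have : l * (K * (2 * (1 - κ₁) * ‖w‖) ^ 2) =
        (l * (1 - κ₁)) * (4 * K * (1 - κ₁) * ‖w‖ ^ 2) := by ring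
    rw [this, hlk, hη]; ring
  linarith

/-- second differences near `x` in terms of those at `x` -/
lemma transfer {κ' t t' : ℝ} (h' : ULT E κ' t) (ht'0 : 0 < t')
    (ht'1 : t' ≤ t / 2) (ht'3 : t' ≤ 1 / 16) {x w z : E} (hx : ‖x‖ = 1) (hw : 0 < ‖w‖)
    (hzx : ‖z - x‖ ≤ t') :
    ∃ w2 : E, ‖w2 - w‖ ≤ (κ' + 2 * t') * ‖w‖ ∧ 1 / 2 * dl x w2 ≤ dl z w := by
  set s : ℝ := ‖w‖ with hs
  set u : E := s⁻¹ • w with hu
  have hun : ‖u‖ = 1 := by
    rw [hu, norm_smul, norm_inv, Real.norm_of_nonneg hw.le, ← hs, inv_mul_cancel₀ hw.ne']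
  have hwu : w = s • u := by
    rw [hu, smul_inv_smul₀ hw.ne']
  have hz1 : |‖z‖ - 1| ≤ t' := by
    rw [← hx]
    exact (abs_norm_sub_norm_le z x).trans hzx
  obtain ⟨hz2, hz3⟩ := abs_le.1 hz1
  have hz0 : 0 < ‖z‖ := by linarith
  set y : E := ‖z‖⁻¹ • z with hy
  have hyn : ‖y‖ = 1 := by
    rw [hy, norm_smul, norm_inv, norm_norm, inv_mul_cancel₀ hz0.ne']
  have hzy : z = ‖z‖ • y := by
    rw [hy, smul_inv_smul₀ hz0.ne']
  have hyz : ‖z - y‖ ≤ t' := by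
    have : z - y = (‖z‖ - 1) • y := by
      rw [sub_smul, one_smul, ← hzy]
    rw [this, norm_smul, hyn, mul_one]
    exact hz1
  have hxy : ‖x - y‖ ≤ t := by
    have : x - y = (x - z) + (z - y) := by abel
    rw [this]
    refine (norm_add_le _ _).trans ?_
    rw [norm_sub_rev x z]
    linarith
  obtain ⟨T, hT1, hT2⟩ := h' x y u hx hyn hun hxy
  refine ⟨‖z‖⁻¹ • T.symm w, ?_, ?_⟩
  · have e1 : ‖z‖⁻¹ • T.symm w - w = (‖z‖⁻¹ - 1) • T.symm w + (T.symm w - w) := by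
      rw [sub_smul, one_smul]; abel
    have e2 : ‖T.symm w - w‖ ≤ κ' * s := by
      have : T.symm w - w = T.symm (w - T w) := by
        rw [map_sub, T.symm_apply_apply]
      rw [this, T.symm.norm_map, norm_sub_rev]
      have e3 : T w - w = s • (T u - u) := by
        conv_lhs => rw [hwu]
        rw [map_smul, smul_sub]
      rw [e3, norm_smul, Real.norm_of_nonneg hw.le, mul_comm]
      exact mul_le_mul_of_nonneg_right hT2 hw.le
    have e4 : |‖z‖⁻¹ - 1| ≤ 2 * t' := by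
      have : ‖z‖⁻¹ - 1 = (1 - ‖z‖) / ‖z‖ := by field_simp
      rw [this, abs_div, abs_of_pos hz0, div_le_iff₀ hz0, abs_sub_comm]
      have q1 : (1 : ℝ) / 2 ≤ ‖z‖ := by linarith
      have q2 : 2 * t' * (1 / 2) ≤ 2 * t' * ‖z‖ :=
        mul_le_mul_of_nonneg_left q1 (by linarith)
      linarith
    rw [e1]
    refine (norm_add_le _ _).trans ?_
    rw [norm_smul, T.symm.norm_map, Real.norm_eq_abs, ← hs]
    have e5 : |‖z‖⁻¹ - 1| * s ≤ 2 * t' * s := mul_le_mul_of_nonneg_right e4 hw.le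
    have e6 : (κ' + 2 * t') * s = 2 * t' * s + κ' * s := by ring
    linarith
  · have e1 : T (‖z‖⁻¹ • T.symm w) = ‖z‖⁻¹ • w := by
      rw [map_smul, T.apply_symm_apply]
    have e2 : dl x (‖z‖⁻¹ • T.symm w) = dl y (‖z‖⁻¹ • w) := by
      rw [← dl_map T, hT1, e1]
    have e3 : dl z w = ‖z‖ * dl x (‖z‖⁻¹ • T.symm w) := by
      rw [e2, ← dl_smul _ _ hz0.le, ← hzy, smul_inv_smul₀ hz0.ne']
    rw [e3]
    exact mul_le_mul_of_nonneg_right (by linarith) (dl_nonneg _ _)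

/-- the bound coming from a long sum of second differences -/
lemma chain_bound {x w : E} {β t' : ℝ} (hx : ‖x‖ = 1) (hw : 0 < ‖w‖) (hst : ‖w‖ < t')
    (hβ : ∀ z : E, ‖z - x‖ ≤ t' → β ≤ dl z w) : β * t' ≤ 4 * ‖w‖ ^ 2 := by
  rcases le_or_gt β 0 with hb | hb
  · have : 0 < t' := hw.trans hst
    nlinarith [sq_nonneg ‖w‖]
  set s : ℝ := ‖w‖ with hs
  have ht'0 : 0 < t' := hw.trans hst
  set n : ℕ := ⌊t' / s⌋₊ with hn
  have hn1 : 1 ≤ n := by
    rw [hn, Nat.one_le_floor_iff, le_div_iff₀ hw]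
    linarith
  have hn2 : (n : ℝ) * s ≤ t' := by
    have := Nat.floor_le (show 0 ≤ t' / s by positivity)
    rwa [← hn, le_div_iff₀ hw] at this
  have hn3 : t' ≤ 2 * ((n : ℝ) * s) := by
    have := Nat.lt_floor_add_one (t' / s)
    rw [← hn, div_lt_iff₀ hw] at this
    have h1 : (1 : ℝ) ≤ n := by exact_mod_cast hn1
    nlinarith
  have hkey : ∀ k : ℤ, |k| < n → β ≤
      ‖x + ((k + 1 : ℤ) : ℝ) • w‖ + ‖x + ((k - 1 : ℤ) : ℝ) • w‖ - 2 * ‖x + (k : ℝ) • w‖ := by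
    intro k hk
    have hkn : |(k : ℝ)| ≤ n := by
      have : |k| ≤ (n : ℤ) := hk.le
      exact_mod_cast this
    have hzx : ‖(x + (k : ℝ) • w) - x‖ ≤ t' := by
      rw [add_sub_cancel_left, norm_smul, Real.norm_eq_abs, ← hs]
      exact (mul_le_mul_of_nonneg_right hkn hw.le).trans hn2
    have h1 := hβ _ hzx
    have e1 : x + ((k + 1 : ℤ) : ℝ) • w = (x + (k : ℝ) • w) + w := by
      push_cast; rw [add_smul, one_smul]; abel
    have e2 : x + ((k - 1 : ℤ) : ℝ) • w = (x + (k : ℝ) • w) - w := by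
      push_cast; rw [sub_smul, one_smul]; abel
    rw [e1, e2]
    exact h1
  have hsum : β * (n : ℝ) ^ 2 ≤ ‖x + (((n : ℤ)) : ℝ) • w‖ + ‖x + ((-(n : ℤ) : ℤ) : ℝ) • w‖ -
      2 * ‖x + ((0 : ℤ) : ℝ) • w‖ := second_sum (fun k : ℤ => ‖x + (k : ℝ) • w‖) β n hkey
  have e1 : ‖x + (((n : ℤ)) : ℝ) • w‖ ≤ 1 + n * s := by
    refine (norm_add_le _ _).trans ?_
    rw [norm_smul, hx, ← hs]
    simp
  have e2 : ‖x + ((-(n : ℤ) : ℤ) : ℝ) • w‖ ≤ 1 + n * s := by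
    refine (norm_add_le _ _).trans ?_
    rw [norm_smul, hx, ← hs]
    simp
  have e3 : ‖x + ((0 : ℤ) : ℝ) • w‖ = 1 := by simp [hx]
  rw [e3] at hsum
  have e4 : β * (n : ℝ) ^ 2 ≤ 2 * (n * s) := by linarith
  have hn0 : (0 : ℝ) < n := by exact_mod_cast hn1
  have e5 : β * n ≤ 2 * s := by
    have : β * n * n ≤ 2 * s * n := by nlinarith
    exact le_of_mul_le_mul_right this hn0
  have e6 : β * (n * s) ≤ 2 * s ^ 2 := by nlinarith
  nlinarith

/-- Step 1: uniform local transitivity implies smoothness of power type 2 -/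
theorem smooth_of_ULT {κ t : ℝ} (hκ : κ < 1 / 2) (ht : 0 < t) (h : ULT E κ t) :
    ∃ K : ℝ, 0 < K ∧ ∀ x w : E, ‖x‖ = 1 → dl x w ≤ K * ‖w‖ ^ 2 := by
  obtain ⟨κ', hκ'0, hκ'1, h'⟩ : ∃ κ', 0 ≤ κ' ∧ κ' < 1 / 2 ∧ ULT E κ' t := by
    refine ⟨max κ 0, le_max_right _ _, max_lt hκ (by norm_num), ?_⟩
    intro x y u hx hy hu hxy
    obtain ⟨T, h1, h2⟩ := h x y u hx hy hu hxy
    exact ⟨T, h1, h2.trans (le_max_left _ _)⟩
  set κ₁ : ℝ := (1 / 2 + κ') / 2 with hκ₁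
  have hκ₁0 : 0 < κ₁ := by rw [hκ₁]; linarith
  have hκ₁1 : κ₁ < 1 / 2 := by rw [hκ₁]; linarith
  set t' : ℝ := min (t / 2) ((1 / 2 - κ') / 8) with ht'
  have ht'0 : 0 < t' := lt_min (by linarith) (by linarith)
  have ht'1 : t' ≤ t / 2 := min_le_left _ _
  have ht'2 : t' ≤ (1 / 2 - κ') / 8 := min_le_right _ _
  have ht'3 : t' ≤ 1 / 16 := by linarith
  set η : ℝ := (1 - 2 * κ₁) ^ 2 / 2 with hη
  have hη0 : 0 < η := by
    rw [hη]
    have : 0 < 1 - 2 * κ₁ := by linarith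
    positivity
  have hη1 : η ≤ 1 / 2 := by
    rw [hη]
    have : (1 - 2 * κ₁) ^ 2 ≤ 1 := by nlinarith
    linarith
  have hKs : 0 < 8 / (η * t') := by positivity
  refine ⟨8 / (η * t'), hKs, ?_⟩
  intro x₀ w₀ hx₀
  rcases eq_or_ne w₀ 0 with rfl | hw₀
  · rw [dl_zero]; positivity
  have hσ0 : 0 < ‖w₀‖ := norm_pos_iff.2 hw₀
  set σ : ℝ := ‖w₀‖ with hσ
  set R : Set ℝ := {r | ∃ x w : E, ‖x‖ = 1 ∧ σ ≤ ‖w‖ ∧ r = dl x w / ‖w‖ ^ 2} with hR
  have hbdd : BddAbove R := by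
    refine ⟨2 / σ, ?_⟩
    rintro r ⟨x, w, _, hw, rfl⟩
    have hw0 : 0 < ‖w‖ := hσ0.trans_le hw
    rw [div_le_div_iff₀ (by positivity) hσ0]
    have := dl_le x w
    have h5 := dl_nonneg x w
    nlinarith
  have hmem : dl x₀ w₀ / ‖w₀‖ ^ 2 ∈ R := ⟨x₀, w₀, hx₀, le_rfl, rfl⟩
  set K : ℝ := sSup R with hK
  have hKub : ∀ x w : E, ‖x‖ = 1 → σ ≤ ‖w‖ → dl x w ≤ K * ‖w‖ ^ 2 := by
    intro x w hx hw
    have hw0 : 0 < ‖w‖ := hσ0.trans_le hw
    have := le_csSup hbdd (show dl x w / ‖w‖ ^ 2 ∈ R from ⟨x, w, hx, hw, rfl⟩)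
    rwa [div_le_iff₀ (by positivity)] at this
  suffices hmain : K ≤ 8 / (η * t') by
    have h1 := hKub x₀ w₀ hx₀ le_rfl
    exact h1.trans (mul_le_mul_of_nonneg_right hmain (by positivity))
  by_contra hcon
  push Not at hcon
  have hKpos : 0 < K := hKs.trans hcon
  obtain ⟨r, ⟨x, w, hx, hw, rfl⟩, hr⟩ := exists_lt_of_lt_csSup ⟨_, hmem⟩
    (show (1 - η) * K < sSup R by rw [← hK]; nlinarith)
  have hs0 : 0 < ‖w‖ := hσ0.trans_le hw
  have hxw : (1 - η) * K * ‖w‖ ^ 2 < dl x w := by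
    rwa [lt_div_iff₀ (by positivity)] at hr
  have hxw2 := dl_le x w
  have hbig : K * (η * t') ≤ 8 := by
    rcases le_or_gt t' ‖w‖ with hst | hst
    · have h1 : (1 - η) * K * ‖w‖ ≤ 2 := by
        have : (1 - η) * K * ‖w‖ * ‖w‖ ≤ 2 * ‖w‖ := by nlinarith
        exact le_of_mul_le_mul_right this hs0
      have h2 : K * t' ≤ 4 := by
        have : (1 - η) * K * t' ≤ (1 - η) * K * ‖w‖ :=
          mul_le_mul_of_nonneg_left hst (by nlinarith)
        nlinarith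
      have h3 : K * t' * η ≤ K * t' * 1 :=
        mul_le_mul_of_nonneg_left (by linarith) (by positivity)
      linarith
    · have hβ : ∀ z : E, ‖z - x‖ ≤ t' → 1 / 2 * (η * K * ‖w‖ ^ 2) ≤ dl z w := by
        intro z hz
        obtain ⟨w2, hw2, hd⟩ := transfer h' ht'0 ht'1 ht'3 hx hs0 hz
        have h1 : ‖w2 - w‖ ≤ κ₁ * ‖w‖ :=
          hw2.trans (mul_le_mul_of_nonneg_right (by rw [hκ₁]; linarith) hs0.le)
        have h2 := pert hσ0 hw hκ₁0 hκ₁1 hη hKpos (fun w hw => hKub x w hx hw) hxw h1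
        linarith
      have h1 := chain_bound hx hs0 hst hβ
      have h2 : (K * (η * t')) * ‖w‖ ^ 2 ≤ 8 * ‖w‖ ^ 2 := by nlinarith
      exact le_of_mul_le_mul_right h2 (by positivity)
  have hfin : K ≤ 8 / (η * t') := by
    rw [le_div_iff₀ (by positivity)]
    exact hbig
  linarith

end Pool.H755R2.MT
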